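import Pool.Agent.Lib.MP_fd4af6_gt.Moll

/-!
Every convex curve of length one is the uniform limit of a `d_B`-Cauchy sequence of billiard
tables.
-/

set_option autoImplicit false

open Set Real Filter Topology
open scoped ENNReal
open Pool.Agent.Lib.MP_fd4af6_gt

namespace Pool.Agent.Results.MP_fd4af6_gt.CauchyTables

lemma exists_tanData (C : ℝ → ℂ) (hC : IsConvexLoop C) (hunit : HasUnitSpeedOn C Set.univ) :
    ∃ L κ, TanData C L κ := by
  obtain ⟨hc, hper, hinj, K, hK, hconv, hfr, p, hp, θ, hθ, hpol, hw⟩ := hC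
  have hmem : ∀ t, C t ∈ K ∧ C t ∉ interior K := by
    intro t
    have : C t ∈ frontier K := hfr ▸ mem_range_self t
    rw [hK.isClosed.frontier_eq] at this
    exact this
  have hint : interior ((fun z => p + z) ⁻¹' K) = (fun z => p + z) ⁻¹' interior K :=
    ((Homeomorph.addLeft p).preimage_interior K).symm
  have P : Polar (fun t => C t - p) θ ((fun z => p + z) ⁻¹' K) :=
    { cont := hc.sub continuous_const
      per := fun t => by simp only [hper t]
      inj := fun a ha b hb h => hinj ha hb (sub_left_injective h)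
      conv := hconv.translate_preimage_right p
      zero_mem := by rw [hint]; simpa using hp
      mem := fun t => by simpa using (hmem t).1
      not_mem := fun t => by rw [hint]; simpa using (hmem t).2
      θcont := hθ
      polar := hpol
      wind := hw }
  have hu : HasUnitSpeedOn (fun t => C t - p) univ := by
    intro x hx y hy
    rw [← hunit hx hy]
    unfold eVariationOn
    simp only [edist_sub_right]
  obtain ⟨L, κ, T⟩ := P.exists_tanData hu
  refine ⟨L, κ, T.mono, T.per, T.κpos, hper, fun q r => ?_, fun φ₁ φ₂ q r h1 h2 h3 h4 h5 => ?_⟩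
  · simpa using T.lip q r
  · simpa using T.est φ₁ φ₂ q r h1 h2 h3 h4 h5

/-- Let `C : ℝ/ℤ → ℝ²` be a simple closed curve, parametrized counterclockwise by arc length
(so of length one), that bounds a convex set. Then some sequence of billiard tables is Cauchy
for the geometric distance `d_B` and converges uniformly to `C`. -/
theorem result (C : ℝ → ℂ) (hC : IsConvexLoop C) (hunit : HasUnitSpeedOn C Set.univ) :
    ∃ α : ℕ → ℝ → ℂ, (∀ i, IsTable (α i)) ∧
      (∀ ε : ℝ≥0∞, 0 < ε → ∃ N : ℕ, ∀ i ≥ N, ∀ j ≥ N, dB (α i) (α j) < ε) ∧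
      TendstoUniformly α C Filter.atTop := by
  obtain ⟨L, κ, T⟩ := exists_tanData C hC hunit
  obtain ⟨B, hB, hadm⟩ := T.exists_adm
  obtain ⟨M, hM0, hM⟩ := exists_bound_transition
  set e : ℕ → ℝ := fun n => 1 / ((n : ℝ) + 1) with he
  have hepos : ∀ n, 0 < e n := fun n => by simp only [he]; positivity
  have he1 : ∀ n, e n ≤ 1 := fun n => by
    simp only [he]; rw [div_le_one (by positivity)]; linarith [Nat.cast_nonneg (α := ℝ) n]
  have helim : Tendsto e atTop (𝓝 0) := tendsto_one_div_add_atTop_nhds_zero_nat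
  choose Λ hΛ hs using fun n => hadm (e n) (hepos n) (he1 n)
  refine ⟨fun n => curve (Λ n) (C (L 0) - L 0), fun n => (hΛ n).isTable_curve _, ?_, ?_⟩
  · intro ε hε
    have hlim : Tendsto (fun n => ENNReal.ofReal (M * (2 * (e n * (2 + 2 * π * B))))) atTop
        (𝓝 0) := by
      have := ENNReal.tendsto_ofReal
        (((helim.mul_const (2 + 2 * π * B)).const_mul 2).const_mul M)
      simpa using this
    obtain ⟨N, hN⟩ := eventually_atTop.1 (hlim.eventually (gt_mem_nhds hε))
    refine ⟨N, fun i hi j hj => lt_of_le_of_lt (dB_le hM (hΛ i) (hΛ j) _ fun φ => ?_) (hN N le_rfl)⟩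
    have a := T.II_close (hΛ i) (hepos i).le hB (hs i) φ
    have b := T.II_close (hΛ j) (hepos j).le hB (hs j) φ
    have hanti : ∀ n ≥ N, e n ≤ e N := fun n hn => Nat.one_div_le_one_div hn
    have hpos : 0 ≤ 2 + 2 * π * B := by positivity
    have a' := mul_le_mul_of_nonneg_right (hanti i hi) hpos
    have b' := mul_le_mul_of_nonneg_right (hanti j hj) hpos
    calc ‖II (Λ j) φ - II (Λ i) φ‖ = ‖(II (Λ j) φ - II L φ) - (II (Λ i) φ - II L φ)‖ := by
          congr 1; ring
      _ ≤ _ := norm_sub_le _ _
      _ ≤ _ := by linarith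
  · rw [Metric.tendstoUniformly_iff]
    intro ε hε
    have h1 : Tendsto (fun n => e n * (5 + 2 * π * B + 2 * B)) atTop (𝓝 0) := by
      simpa using helim.mul_const (5 + 2 * π * B + 2 * B)
    have h2 : Tendsto (fun n => 2 * e n) atTop (𝓝 0) := by simpa using helim.const_mul 2
    filter_upwards [h1.eventually (gt_mem_nhds hε), h2.eventually (gt_mem_nhds T.κpos)]
      with n hn1 hn2 q
    rw [dist_comm, dist_eq_norm]
    exact lt_of_le_of_lt (T.curve_close (hΛ n) (hepos n).le (he1 n) hn2 hB (hs n) q) hn1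

end Pool.Agent.Results.MP_fd4af6_gt.CauchyTables
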