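import Pool.Agent.Lib.MP_fd4af6_gt.Lift

/-!
The exact value of the geometric distance `d_B` between two billiard tables.
-/

set_option autoImplicit false

open Set Real
open scoped ENNReal
open Pool.Agent.Lib.MP_fd4af6_gt

namespace Pool.Agent.Results.MP_fd4af6_gt.ExactDistance

lemma exists_min {d : ℤ → ℝ≥0∞} {c : ℝ} (hd : ∀ k : ℤ, ENNReal.ofReal (|(k : ℝ)| - c) ≤ d k) :
    ∃ k, ∀ j, d k ≤ d j := by
  by_cases h : ∀ k, d k = ⊤
  · exact ⟨0, fun j => (h j).symm ▸ le_top⟩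
  obtain ⟨k₀, hk⟩ := not_forall.1 h
  obtain ⟨N, hN⟩ := exists_nat_ge ((d k₀).toReal + c)
  have hfin : {k | d k ≤ d k₀}.Finite := (Set.finite_Icc (-(N : ℤ)) N).subset fun k hk' => by
    have h1 := (ENNReal.ofReal_le_iff_le_toReal hk).1 ((hd k).trans hk')
    have h2 : |(k : ℝ)| ≤ N := by linarith
    exact abs_le.1 (by exact_mod_cast h2)
  obtain ⟨k, h1, h2⟩ := Set.exists_min_image _ d hfin ⟨k₀, le_refl (d k₀)⟩
  exact ⟨k, fun j => (le_total (d j) (d k₀)).elim (h2 j) (le_trans h1)⟩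

lemma exists_least {α β : ℝ → ℂ} (hα : IsTable α) (hβ : IsTable β) :
    ∃ h₀ : ℝ → ℝ, (Continuous h₀ ∧ ∀ q, deriv β (h₀ q) = deriv α q) ∧
      ∀ h : ℝ → ℝ, Continuous h → (∀ q, deriv β (h q) = deriv α q) →
        ⨆ q : ℝ, ‖β (h₀ q) - α q - ((h₀ q - q : ℝ) : ℂ) * deriv α q‖ₑ ≤
          ⨆ q : ℝ, ‖β (h q) - α q - ((h q - q : ℝ) : ℂ) * deriv α q‖ₑ := by
  obtain ⟨a, ha⟩ := (Complex.norm_eq_one_iff _).1 (hα.2.2.1 0)
  obtain ⟨b, hb⟩ := (Complex.norm_eq_one_iff _).1 (hβ.2.2.1 0)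
  obtain ⟨Λ₀, w₀, A₀, e₀, -⟩ := table_rep hα ha.symm
  obtain ⟨Λ₁, w₁, A₁, e₁, -⟩ := table_rep hβ hb.symm
  have d0 : ∀ q, deriv α q = ex (Function.invFun Λ₀ q) := fun q =>
    e₀ ▸ (A₀.hasDerivAt_curve w₀ q).deriv
  have d1 : ∀ q, deriv β q = ex (Function.invFun Λ₁ q) := fun q =>
    e₁ ▸ (A₁.hasDerivAt_curve w₁ q).deriv
  have hint : ∀ (k : ℤ) (φ : ℝ), Λ₁ (φ + k * (2 * π)) = Λ₁ φ + k := fun k φ => by
    have h1 : Function.Periodic (fun φ => Λ₁ φ - φ / (2 * π)) (2 * π) := fun φ => by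
      simp only [A₁.per]
      field_simp
      ring
    have h2 := h1.int_mul k φ
    simp only [add_div, mul_div_assoc, div_self (show (2 * π : ℝ) ≠ 0 by positivity)] at h2
    linarith
  set g : ℝ → ℝ := fun q => Λ₁ (Function.invFun Λ₀ q) with hg
  have gc : Continuous g := A₁.smooth.continuous.comp A₀.inv_smooth.continuous
  have hk : ∀ (k : ℤ) (q : ℝ), deriv β (g q + k) = deriv α q := fun k q => by
    rw [hg, ← hint, d1, A₁.inv_apply, ex_periodic.int_mul k, d0]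
  obtain ⟨k, hmin⟩ := exists_min (c := |g 0| + ‖β (g 0) - α 0‖)
    (d := fun k => ⨆ q : ℝ, ‖β (g q + k) - α q - ((g q + k - q : ℝ) : ℂ) * deriv α q‖ₑ) fun k => by
      refine le_trans ?_ (le_iSup _ (0 : ℝ))
      rw [← ofReal_norm]
      apply ENNReal.ofReal_le_ofReal
      have h1 : β (g 0 + k) = β (g 0) := by simpa using hβ.1.2.1.int_mul k (g 0)
      have h2 := norm_sub_norm_le (((g 0 + k - 0 : ℝ) : ℂ) * deriv α 0) (β (g 0) - α 0)
      rw [norm_mul, hα.2.2.1, Complex.norm_real, Real.norm_eq_abs, norm_sub_rev (_ * _)] at h2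
      have h3 := abs_sub (g 0 + k - 0) (g 0)
      rw [show g 0 + k - 0 - g 0 = k by ring] at h3
      rw [h1]
      linarith
  refine ⟨fun q => g q + k, ⟨gc.add continuous_const, hk k⟩, fun h hc hm => ?_⟩
  have h1 : ∀ q, ex (Function.invFun Λ₁ (h q)) = ex (Function.invFun Λ₀ q) := fun q => by
    rw [← d1, hm, d0]
  obtain ⟨j, hj⟩ := Complex.exp_eq_exp_iff_exists_int.1 (h1 0)
  have h2 : (fun q => Function.invFun Λ₁ (h q)) = fun q => Function.invFun Λ₀ q + j * (2 * π) :=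
    lift_unique (A₁.inv_smooth.continuous.comp hc) (A₀.inv_smooth.continuous.add continuous_const)
      (fun q => by rw [h1, ex_periodic.int_mul j]) (q₀ := 0)
      (by simpa using congrArg Complex.im hj)
  have h3 : h = fun q => g q + j := funext fun q => by
    rw [hg, ← hint, ← congrFun h2 q, A₁.apply_inv]
  rw [h3]
  exact hmin j

/-- For billiard tables `α`, `β`, the distance `d_B(α, β)` is the least of the numbers
`sup_q ‖β (h q) - α q - (h q - q) α'(q)‖`, where `h` runs over the continuous maps `ℝ → ℝ` that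
match tangent vectors: `β'(h q) = α'(q)` for all `q`. -/
theorem result (α β : ℝ → ℂ) (hα : IsTable α) (hβ : IsTable β) :
    IsLeast {d : ℝ≥0∞ | ∃ h : ℝ → ℝ, Continuous h ∧ (∀ q, deriv β (h q) = deriv α q) ∧
      d = ⨆ q : ℝ, ‖β (h q) - α q - ((h q - q : ℝ) : ℂ) * deriv α q‖ₑ} (dB α β) := by
  have hle : ∀ h : ℝ → ℝ, Continuous h → (∀ q, deriv β (h q) = deriv α q) →
      dB α β ≤ ⨆ q : ℝ, ‖β (h q) - α q - ((h q - q : ℝ) : ℂ) * deriv α q‖ₑ := fun h hc hm => by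
    rcases eq_or_ne (⨆ q : ℝ, ‖β (h q) - α q - ((h q - q : ℝ) : ℂ) * deriv α q‖ₑ) ⊤ with e | e
    · exact e ▸ le_top
    · rw [← ENNReal.ofReal_toReal e]
      refine dB_le_of_match hα hβ hc hm fun q => ?_
      rw [← toReal_enorm]
      exact ENNReal.toReal_mono e
        (le_iSup (fun q => ‖β (h q) - α q - ((h q - q : ℝ) : ℂ) * deriv α q‖ₑ) q)
  obtain ⟨h₀, ⟨hc, hm⟩, hmin⟩ := exists_least hα hβ
  refine ⟨⟨h₀, hc, hm, le_antisymm (hle h₀ hc hm) (le_iInf₂ fun H hH => ?_)⟩, ?_⟩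
  · obtain ⟨h, ⟨h1, h2⟩, h3⟩ := exists_match hH
    exact (hmin h h1 h2).trans (iSup_le h3)
  · rintro d ⟨h, h1, h2, rfl⟩
    exact hle h h1 h2

end Pool.Agent.Results.MP_fd4af6_gt.ExactDistance
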