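import Pool.Agent.Lib.MP_fd4af6_gt.Close

/-!
The geometric distance `d_B` between two billiard tables is at most `2 + 3π` times their
uniform distance.
-/

set_option autoImplicit false

open scoped ENNReal
open Pool.Agent.Lib.MP_fd4af6_gt

namespace Pool.Agent.Results.MP_fd4af6_gt.UniformBound

/-- For any two billiard tables, `d_B(α, β) ≤ (2 + 3π) · max_q ‖α q - β q‖`. -/
theorem result (α β : ℝ → ℂ) (hα : IsTable α) (hβ : IsTable β) :
    dB α β ≤ ENNReal.ofReal (2 + 3 * Real.pi) * ⨆ q : ℝ, ‖α q - β q‖ₑ := by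
  have hp : 0 < 2 + 3 * Real.pi := by positivity
  rcases eq_or_ne (⨆ q : ℝ, ‖α q - β q‖ₑ) ⊤ with h | h
  · rw [h, ENNReal.mul_top (by simpa using hp)]
    exact le_top
  · refine (dB_le_of_close hα hβ (δ := (⨆ q : ℝ, ‖α q - β q‖ₑ).toReal) fun q => ?_).trans ?_
    · rw [← toReal_enorm]
      exact ENNReal.toReal_mono h (le_iSup (fun q => ‖α q - β q‖ₑ) q)
    · rw [ENNReal.ofReal_mul hp.le, ENNReal.ofReal_toReal h]

end Pool.Agent.Results.MP_fd4af6_gt.UniformBound
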